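import Pool.Agent.Q210.IV.Cont

set_option linter.unusedSectionVars false

open Filter Set Cardinal ZFSet

universe u v

namespace Q210.IV

open Q210.IU

section
variable {L : Type u} [LinearOrder L] [WellFoundedLT L] (l : Cardinal.{u}) (κ : L → Cardinal.{u})

/-- the second coordinates -/
abbrev Kt : Type u := l.ord.ToType

variable (L) in
/-- the index set -/
abbrev It : Type u := L ×ₗ Kt l

/-- the spaces -/
abbrev Xt (c : It L l) : Type u := (κ (ofLex c).1).ord.ToType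

variable (W : ∀ n, Ultrafilter (κ n).ord.ToType)

/-- the ultrafilters -/
def Ut (c : It L l) : Ultrafilter (Xt l κ c) := W (ofLex c).1

variable {l} (B : L → Set (Kt l))

/-- a block: `B j` many copies of the `n`-th ultrafilter -/
def blk (n j : L) : Set (It L l) := {c | (ofLex c).1 = n ∧ (ofLex c).2 ∈ B j}

variable {κ W B} (hκ : StrictMono κ) (h0 : ∀ n, ℵ₀ < κ n) (hW : ∀ n, IsMeas (W n))
  (hB : ∀ j, #(B j) = κ j) (hcof : ∀ c < l, ∃ n, c < κ n)

include hcof in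
lemma exists_lt {o : Ordinal.{u}} (ho : o < l.ord) : ∃ n, o < (κ n).ord := by
  rw [Cardinal.lt_ord] at ho
  obtain ⟨n, hn⟩ := hcof _ ho
  exact ⟨n, Cardinal.lt_ord.2 hn⟩

include h0 hW in
lemma inacc (n : L) : IsInaccessible (κ n) := (hW n).isInaccessible (h0 n)

include h0 hW in
lemma Ut_sigma (c : It L l) : Cpl (Ut l κ W c) (ULift.{u} ℕ) := by
  refine (hW (ofLex c).1).cpl ?_
  rw [Cardinal.mk_uLift, Cardinal.mk_nat, Cardinal.lift_aleph0]
  exact h0 _

include hW in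
lemma Ut_cpl (c : It L l) {T : Type u} (hT : #T < κ (ofLex c).1) : Cpl (Ut l κ W c) T :=
  (hW (ofLex c).1).cpl hT

lemma mk_Xt (c : It L l) : #(Xt l κ c) = κ (ofLex c).1 := by
  simp [Xt]

include hB in
lemma mk_blk (n j : L) : #(blk B n j) ≤ κ j := by
  rw [← hB j]
  refine Cardinal.mk_le_of_injective (f := fun c : blk B n j => (⟨(ofLex c.1).2, c.2.2⟩ : B j)) ?_
  intro c d h
  have h1 : (ofLex c.1).2 = (ofLex d.1).2 := Subtype.ext_iff.1 h
  have h2 : (ofLex c.1).1 = (ofLex d.1).1 := c.2.1.trans d.2.1.symm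
  apply Subtype.ext
  exact ofLex.injective (Prod.ext h2 h1)

lemma lt_of_fst {c d : It L l} (h : (ofLex c).1 < (ofLex d).1) : c < d := by
  rw [Prod.Lex.lt_iff]
  exact Or.inl h

end

section
variable {L : Type u} [LinearOrder L] [WellFoundedLT L] {l : Cardinal.{u}} {κ : L → Cardinal.{u}}
variable {W : ∀ n, Ultrafilter (κ n).ord.ToType} {B : L → Set (Kt l)}
variable (hκ : StrictMono κ) (h0 : ∀ n, ℵ₀ < κ n) (hW : ∀ n, IsMeas (W n))
  (hB : ∀ j, #(B j) = κ j) (hcof : ∀ c < l, ∃ n, c < κ n) (hl : ∀ n, κ n < l)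

variable (W) in
/-- the embedding -/
noncomputable def Et (S : Set (It L l)) (x : ZFSet.{u}) : ZFSet.{u} :=
  E (Ut l κ W) (Ut_sigma h0 hW) S x

/-- small systems map small ordinals to small ordinals -/
lemma Et_small {m : Cardinal.{u}} (hm : IsInaccessible m) {P : Set (It L l)} (hP : #P < m)
    (hX : ∀ c ∈ P, κ (ofLex c).1 < m) {o : Ordinal.{u}} (ho : o < m.ord) :
    Et W h0 hW P o.toZFSet ∈ m.ord.toZFSet := by
  apply mem_of_card_lt (E_ord _ _ _ (ZFSet.isOrdinal_toZFSet o))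
  apply card_E_lt _ _ _ hm.isStrongLimit hP
  · rw [Cardinal.mk_sigma]
    refine sum_lt_of_isRegular hm.isRegular hP fun c => ?_
    rw [mk_Xt]
    exact hX c.1 c.2
  · rw [Ordinal.card_toZFSet]
    exact Cardinal.lt_ord.1 ho

/-- systems living high fix small sets -/
lemma Et_fix {n : L} {S : Set (It L l)} (hS : ∀ c ∈ S, n ≤ (ofLex c).1) {z : ZFSet.{u}}
    (hz : z.rank < (κ n).ord) (hκ : StrictMono κ) : Et W h0 hW S z = z := by
  refine E_fix _ _ S (inacc h0 hW n) (fun c hc T hT => ?_) z hz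
  exact Ut_cpl hW c (hT.trans_le (hκ.monotone (hS c hc)))

/-- the bound `l` is inaccessible or of cofinality below all the measurables used -/
def Cont (l : Cardinal.{u}) (κ : L → Cardinal.{u}) : Prop :=
  IsInaccessible l ∨ ∃ (T : Type u) (a : T → Ordinal.{u}), (∀ n, #T < κ n) ∧
    (∀ t, a t < l.ord) ∧ ∀ η < l.ord, ∃ t, η < a t

include hl in
/-- the supremum is fixed as soon as smaller ordinals stay below it -/
lemma Et_sup (hc : Cont l κ) {S : Set (It L l)} (h : ∀ η < l.ord, Et W h0 hW S η.toZFSet ∈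
    l.ord.toZFSet) : Et W h0 hW S l.ord.toZFSet = l.ord.toZFSet := by
  rcases hc with hc | ⟨T, a, hT, ha, hab⟩
  · refine E_reg _ _ S hc (fun c _ => ?_) fun η hη => ?_
    · rw [mk_Xt]
      exact hl _
    · exact (ZFSet.isOrdinal_toZFSet _).subset_of_mem (h η hη)
  · refine E_lim' _ _ S (T := T) (fun c _ => Ut_cpl hW c (hT _)) hab fun n => ?_
    exact (ZFSet.isOrdinal_toZFSet _).subset_of_mem (h _ (ha n))

include hκ hB hcof hl in
lemma Et_blk_sup (hc : Cont l κ) (n j : L) : Et W h0 hW (blk B n j) l.ord.toZFSet =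
    l.ord.toZFSet := by
  refine Et_sup h0 hW hl hc fun η hη => ?_
  have h4 : max η.card (max (κ n) (κ j)) < l :=
    max_lt (Cardinal.lt_ord.1 hη) (max_lt (hl n) (hl j))
  obtain ⟨N, hN⟩ := hcof _ h4
  have h1 : κ n < κ N := lt_of_le_of_lt ((le_max_left _ _).trans (le_max_right _ _)) hN
  have h2 : κ j < κ N := lt_of_le_of_lt ((le_max_right _ _).trans (le_max_right _ _)) hN
  have h5 : η < (κ N).ord := Cardinal.lt_ord.2 (lt_of_le_of_lt (le_max_left _ _) hN)
  have h3 := Et_small h0 hW (inacc h0 hW N) (P := blk B n j)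
    (lt_of_le_of_lt (mk_blk hB n j) h2)
    (fun c hc => by rw [hc.1]; exact h1) h5
  refine (ZFSet.isOrdinal_toZFSet _).mem_trans h3 ?_
  rw [Ordinal.toZFSet_mem_toZFSet_iff]
  exact Cardinal.ord_lt_ord.2 (hl N)

/-- the projections -/
noncomputable def prj (n j : L) (ξ : B j) : Fn (Xt l κ) (blk B n j) :=
  ⟨fun s => (Ordinal.ToType.toOrd (o := (κ n).ord) (s (toLex (n, ξ.1)))).1.toZFSet,
    {toLex (n, ξ.1)}, by
    intro c hc
    rw [Finset.mem_coe, Finset.mem_singleton] at hc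
    subst hc
    exact ⟨rfl, ξ.2⟩, by
    intro s s' hs
    have := hs (toLex (n, ξ.1)) (by simp)
    change (Ordinal.ToType.toOrd (o := (κ n).ord) (s (toLex (n, ξ.1)))).1.toZFSet =
      (Ordinal.ToType.toOrd (o := (κ n).ord) (s' (toLex (n, ξ.1)))).1.toZFSet
    rw [this]⟩

lemma prj_mem (n j : L) (ξ : B j) :
    coll (Ut l κ W) (Ut_sigma h0 hW) (prj (κ := κ) (B := B) n j ξ) ∈
      Et W h0 hW (blk B n j) (κ n).ord.toZFSet := by
  unfold Et
  rw [mem_E]
  refine ⟨_, ?_, rfl⟩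
  refine large_of_forall ((prj (κ := κ) n j ξ).fs.comp fun a => a ∈ (κ n).ord.toZFSet) fun s => ?_
  rw [Ordinal.mem_toZFSet_iff]
  exact ⟨_, (Ordinal.ToType.toOrd (o := (κ n).ord) (s (toLex (n, ξ.1)))).2, rfl⟩

lemma prj_ne (n j : L) {ξ ζ : B j} (h : ξ.1 < ζ.1) :
    coll (Ut l κ W) (Ut_sigma h0 hW) (prj (κ := κ) (B := B) n j ξ) ≠
      coll (Ut l κ W) (Ut_sigma h0 hW) (prj (κ := κ) (B := B) n j ζ) := by
  classical
  intro hcon
  rw [coll_eq_iff] at hcon
  let c : It L l := toLex (n, ξ.1)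
  let d : It L l := toLex (n, ζ.1)
  have hcd : c < d := by
    rw [Prod.Lex.lt_iff]
    exact Or.inr ⟨rfl, h⟩
  have hsupp : Supp ({c} ∪ {d} : Finset (It L l)) (fun s : ∀ c, Xt l κ c =>
      (prj (κ := κ) (B := B) n j ξ).1 s = (prj (κ := κ) (B := B) n j ζ).1 s) := by
    intro s s' hs
    have h1 : s c = s' c := hs c (by simp)
    have h2 : s d = s' d := hs d (by simp)
    change ((Ordinal.ToType.toOrd (o := (κ n).ord) (s c)).1.toZFSet =
      (Ordinal.ToType.toOrd (o := (κ n).ord) (s d)).1.toZFSet) = 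
      ((Ordinal.ToType.toOrd (o := (κ n).ord) (s' c)).1.toZFSet =
      (Ordinal.ToType.toOrd (o := (κ n).ord) (s' d)).1.toZFSet)
    rw [h1, h2]
  obtain ⟨s⟩ := nonempty_pt (Ut l κ W)
  rw [large_iff hsupp s, sort_split (S₁ := {c}) (S₂ := {d}) (by
    rintro a rfl b rfl
    exact hcd) (by simp) (by simp), Finset.sort_singleton, Finset.sort_singleton] at hcon
  change ∀ᶠ t in (Ut l κ W c : Filter (Xt l κ c)), ∀ᶠ t' in (Ut l κ W d : Filter (Xt l κ d)),
    (prj (κ := κ) (B := B) n j ξ).1 (Function.update (Function.update s c t) d t') =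
      (prj (κ := κ) (B := B) n j ζ).1 (Function.update (Function.update s c t) d t') at hcon
  obtain ⟨t, ht⟩ := hcon.exists
  have h3 : ∀ᶠ t' in (Ut l κ W d : Filter (Xt l κ d)), t' ≠ t := (hW n).1 t
  obtain ⟨t', ht', hne⟩ := (ht.and h3).exists
  apply hne
  have e1 : (Function.update (Function.update s c t) d t') c = t := by
    rw [Function.update_of_ne hcd.ne, Function.update_self]
  have e2 : (Function.update (Function.update s c t) d t') d = t' := Function.update_self _ _ _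
  have h4 : (Ordinal.ToType.toOrd (o := (κ n).ord)
        ((Function.update (Function.update s c t) d t') c)).1.toZFSet =
      (Ordinal.ToType.toOrd (o := (κ n).ord)
        ((Function.update (Function.update s c t) d t') d)).1.toZFSet := ht'
  rw [e1, e2] at h4
  have h5 := Ordinal.toZFSet_injective h4
  exact (Ordinal.ToType.mk.symm.injective (Subtype.ext h5)).symm

include hB in
lemma le_Et_blk (n j : L) :
    (κ j).ord.toZFSet ⊆ Et W h0 hW (blk B n j) (κ n).ord.toZFSet := by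
  have hord : (Et W h0 hW (blk B n j) (κ n).ord.toZFSet).IsOrdinal :=
    E_ord (Ut l κ W) (Ut_sigma h0 hW) (blk B n j) (ZFSet.isOrdinal_toZFSet (κ n).ord)
  have h1 : κ j ≤ (Et W h0 hW (blk B n j) (κ n).ord.toZFSet).card := by
    rw [← hB j, ← Cardinal.lift_le.{u + 1}, ← ZFSet.cardinalMk_coe_sort,
      ← Cardinal.lift_id'.{u, u + 1} #(Et W h0 hW (blk B n j) (κ n).ord.toZFSet)]
    refine Cardinal.lift_mk_le_lift_mk_of_injective (f := fun ξ : B j =>
      (⟨_, prj_mem h0 hW n j ξ⟩ : ↥(Et W h0 hW (blk B n j) (κ n).ord.toZFSet))) ?_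
    intro ξ ζ h
    have h2 := Subtype.ext_iff.1 h
    rcases lt_trichotomy ξ.1 ζ.1 with h3 | h3 | h3
    · exact absurd h2 (prj_ne h0 hW n j h3)
    · exact Subtype.ext h3
    · exact absurd h2.symm (prj_ne h0 hW n j h3)
  rw [← ZFSet.IsOrdinal.toZFSet_rank_eq hord, Ordinal.toZFSet_subset_toZFSet_iff, Cardinal.ord_le]
  rw [← Ordinal.card_toZFSet, ZFSet.IsOrdinal.toZFSet_rank_eq hord]
  exact h1

include hκ in
lemma Et_comp {S₁ S₂ : Set (It L l)} {N : L} (h1 : ∀ c ∈ S₁, (ofLex c).1 < N)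
    (h2 : ∀ d ∈ S₂, N ≤ (ofLex d).1) (hc : #S₁ < κ N) (x : ZFSet.{u}) :
    Et W h0 hW (S₁ ∪ S₂) x = Et W h0 hW S₂ (Et W h0 hW S₁ x) := by
  refine E_comp (Ut l κ W) (Ut_sigma h0 hW) (fun c hc d hd => ?_) (fun d hd c hc => ?_)
    (fun d hd => ?_) x
  · exact lt_of_fst ((h1 c hc).trans_le (h2 d hd))
  · refine Ut_cpl hW d ?_
    rw [mk_Xt]
    exact hκ ((h1 c hc).trans_le (h2 d hd))
  · refine Ut_cpl hW d ?_
    refine lt_of_lt_of_le ?_ (hκ.monotone (h2 d hd))
    refine lt_of_le_of_lt ?_ ((inacc h0 hW N).isStrongPrelimit hc)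
    rw [← Cardinal.mk_set]
    refine Cardinal.mk_le_of_injective
      (f := fun F : {F : Finset (It L l) // (F : Set (It L l)) ⊆ S₁} =>
        {c : S₁ | c.1 ∈ F.1}) ?_
    intro F G h
    apply Subtype.ext
    ext c
    constructor
    · intro hc
      have h3 : (⟨c, F.2 hc⟩ : S₁) ∈ {c : S₁ | c.1 ∈ F.1} := hc
      have h4 : {c : S₁ | c.1 ∈ F.1} = {c : S₁ | c.1 ∈ G.1} := h
      rw [h4] at h3
      exact h3
    · intro hc
      have h3 : (⟨c, G.2 hc⟩ : S₁) ∈ {c : S₁ | c.1 ∈ G.1} := hc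
      have h4 : {c : S₁ | c.1 ∈ F.1} = {c : S₁ | c.1 ∈ G.1} := h
      rw [← h4] at h3
      exact h3

variable (B) in
/-- the tail system -/
def tl (n a : ℕ → L) (m : ℕ) : Set (It L l) := {c | ∃ k, m ≤ k ∧ c ∈ blk B (n k) (a k)}

variable (B) in
/-- the initial system -/
def pt (n a : ℕ → L) (m M : ℕ) : Set (It L l) :=
  {c | ∃ k, m ≤ k ∧ k < M ∧ c ∈ blk B (n k) (a k)}

variable {n a : ℕ → L} (hn : StrictMono n) (ha : ∀ k, a k < n (k + 1))

lemma tl_eq (m : ℕ) : tl B n a m = blk B (n m) (a m) ∪ tl B n a (m + 1) := by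
  ext c
  constructor
  · rintro ⟨k, hk, hc⟩
    rcases hk.eq_or_lt with h | h
    · subst h
      exact Or.inl hc
    · exact Or.inr ⟨k, h, hc⟩
  · rintro (hc | ⟨k, hk, hc⟩)
    · exact ⟨m, le_rfl, hc⟩
    · exact ⟨k, (Nat.le_succ m).trans hk, hc⟩

lemma tl_eq' {m M : ℕ} (hmM : m ≤ M) : tl B n a m = pt B n a m M ∪ tl B n a M := by
  ext c
  constructor
  · rintro ⟨k, hk, hc⟩
    rcases lt_or_ge k M with h | h
    · exact Or.inl ⟨k, hk, h, hc⟩
    · exact Or.inr ⟨k, h, hc⟩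
  · rintro (⟨k, hk, _, hc⟩ | ⟨k, hk, hc⟩)
    · exact ⟨k, hk, hc⟩
    · exact ⟨k, hmM.trans hk, hc⟩

include hn in
lemma tl_level (m : ℕ) : ∀ c ∈ tl B n a m, n m ≤ (ofLex c).1 := by
  rintro c ⟨k, hk, hc⟩
  rw [hc.1]
  exact hn.monotone hk

include hn in
lemma pt_level (m M : ℕ) : ∀ c ∈ pt B n a m M, (ofLex c).1 < n M := by
  rintro c ⟨k, _, hk, hc⟩
  rw [hc.1]
  exact hn hk

include hκ h0 hB hn ha in
lemma pt_card (m M : ℕ) : #(pt B n a m M) < κ (n M) := by
  induction M with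
  | zero =>
    have h1 : pt B n a m 0 = ∅ := by
      ext c
      constructor
      · rintro ⟨k, _, hk, _⟩
        exact absurd hk (Nat.not_lt_zero k)
      · intro h
        exact absurd h (Set.notMem_empty c)
    rw [h1, Cardinal.mk_eq_zero]
    exact aleph0_pos.trans (h0 _)
  | succ M ih =>
    have h1 : pt B n a m (M + 1) ⊆ pt B n a m M ∪ blk B (n M) (a M) := by
      rintro c ⟨k, hk1, hk2, hc⟩
      rcases (Nat.lt_succ_iff.1 hk2).eq_or_lt with h | h
      · subst h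
        exact Or.inr hc
      · exact Or.inl ⟨k, hk1, h, hc⟩
    refine lt_of_le_of_lt (Cardinal.mk_le_mk_of_subset h1) ?_
    refine lt_of_le_of_lt (Cardinal.mk_union_le _ _) ?_
    refine add_lt_of_lt (h0 _).le (ih.trans (hκ (hn (Nat.lt_succ_self M)))) ?_
    exact lt_of_le_of_lt (mk_blk hB _ _) (hκ (ha M))

include hκ hB hn ha in
lemma Et_tl_succ (m : ℕ) (x : ZFSet.{u}) : Et W h0 hW (tl B n a m) x =
    Et W h0 hW (tl B n a (m + 1)) (Et W h0 hW (blk B (n m) (a m)) x) := by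
  rw [tl_eq m]
  refine Et_comp hκ h0 hW (N := n (m + 1)) (fun c hc => ?_) (tl_level hn _) ?_ x
  · rw [hc.1]
    exact hn (Nat.lt_succ_self m)
  · exact lt_of_le_of_lt (mk_blk hB _ _) (hκ (ha m))

include h0 hW hκ hB ha in
lemma tl_card {N : L} (hN : ∀ k, n k < N) (m : ℕ) : #(tl B n a m) < κ N := by
  have h1 : tl B n a m ⊆ ⋃ k : ULift.{u} ℕ, blk B (n k.down) (a k.down) := by
    rintro c ⟨k, _, hc⟩
    exact Set.mem_iUnion.2 ⟨⟨k⟩, hc⟩
  refine lt_of_le_of_lt (Cardinal.mk_le_mk_of_subset h1) ?_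
  refine lt_of_le_of_lt (Cardinal.mk_iUnion_le_sum_mk) ?_
  refine sum_lt_of_isRegular (inacc h0 hW N).isRegular ?_ fun k => ?_
  · rw [Cardinal.mk_uLift, Cardinal.mk_nat, Cardinal.lift_aleph0]
    exact h0 _
  · exact lt_of_le_of_lt (mk_blk hB _ _) (hκ ((ha _).trans (hN _)))

include hκ hB hn ha hcof hl in
lemma Et_tl_sup (hc : Cont l κ) (m : ℕ) : Et W h0 hW (tl B n a m) l.ord.toZFSet =
    l.ord.toZFSet := by
  refine Et_sup h0 hW hl hc fun η hη => ?_
  by_cases hM : ∃ M, η < (κ (n M)).ord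
  · have hM : ∃ M, m ≤ M ∧ η < (κ (n M)).ord := by
      obtain ⟨M, hM⟩ := hM
      exact ⟨max m M, le_max_left _ _, hM.trans_le
        (Cardinal.ord_le_ord.2 (hκ.monotone (hn.monotone (le_max_right _ _))))⟩
    obtain ⟨M, hmM, hM⟩ := hM
    rw [tl_eq' hmM, Et_comp hκ h0 hW (N := n M) (pt_level hn m M) (tl_level hn M)
      (pt_card hκ h0 hB hn ha m M)]
    have h1 : Et W h0 hW (pt B n a m M) η.toZFSet ∈ (κ (n M)).ord.toZFSet :=
      Et_small h0 hW (inacc h0 hW (n M)) (pt_card hκ h0 hB hn ha m M)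
        (fun c hc => hκ (pt_level hn m M c hc)) hM
    have h2 : (Et W h0 hW (pt B n a m M) η.toZFSet).rank < (κ (n M)).ord := by
      have := ZFSet.rank_lt_of_mem h1
      rwa [Ordinal.rank_toZFSet] at this
    rw [Et_fix h0 hW (n := n M) (tl_level hn M) h2 hκ]
    refine (ZFSet.isOrdinal_toZFSet _).mem_trans h1 ?_
    rw [Ordinal.toZFSet_mem_toZFSet_iff]
    exact Cardinal.ord_lt_ord.2 (hl _)
  · push Not at hM
    obtain ⟨N, hN⟩ := exists_lt hcof hη
    have hnN : ∀ k, n k < N := by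
      intro k
      by_contra hcon
      push Not at hcon
      exact absurd (hN.trans_le (Cardinal.ord_le_ord.2 (hκ.monotone hcon)))
        (not_lt.2 (hM k))
    have h3 := Et_small h0 hW (inacc h0 hW N) (P := tl B n a m)
      (tl_card hκ h0 hW hB ha hnN m) (fun c hc => by
        obtain ⟨k, _, hk⟩ := hc
        rw [hk.1]
        exact hκ (hnN k)) hN
    refine (ZFSet.isOrdinal_toZFSet _).mem_trans h3 ?_
    rw [Ordinal.toZFSet_mem_toZFSet_iff]
    exact Cardinal.ord_lt_ord.2 (hl N)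

end

end Q210.IV
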