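import Pool.Agent.Q210.IU.Fix

set_option linter.unusedSectionVars false

open Filter Set Cardinal ZFSet

universe u v

namespace Q210.IV

open Q210.IU

section
variable {I : Type u} [LinearOrder I] {X : I → Type u} (U : ∀ c, Ultrafilter (X c))
variable [WellFoundedLT I] (hσ : ∀ c, Cpl (U c) (ULift.{u} ℕ)) (S : Set I)

/-- continuity at limits of small cofinality -/
theorem E_lim' {T : Type u} (hT : ∀ c ∈ S, Cpl (U c) T) {a : T → Ordinal.{u}} {b : Ordinal.{u}}
    (hab : ∀ η < b, ∃ n, η < a n)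
    (ha : ∀ n, E U hσ S (a n).toZFSet ⊆ b.toZFSet) :
    E U hσ S b.toZFSet = b.toZFSet := by
  apply subset_antisymm
  · intro w hw
    rw [mem_E] at hw
    obtain ⟨g, hg, rfl⟩ := hw
    obtain ⟨F, hFS, hF⟩ := g.2
    have h1 : ∃ t : T, Large U (fun s => g.1 s ∈ (a t).toZFSet) := by
      refine large_choose (F := F) (fun c hc => hT c (hFS hc)) (fun t s s' hs => ?_) ?_
      · rw [hF s s' hs]
      · refine large_mono (g.fs.comp fun x => x ∈ b.toZFSet)
          (g.fs.comp fun x => ∃ t : T, x ∈ (a t).toZFSet) (fun s hs => ?_) hg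
        obtain ⟨η, hη, h2⟩ := Ordinal.mem_toZFSet_iff.1 hs
        obtain ⟨n, hn⟩ := hab η hη
        exact ⟨n, by rw [← h2]; exact Ordinal.toZFSet_mem_toZFSet_iff.2 hn⟩
    obtain ⟨n, hn⟩ := h1
    exact ha n ((mem_E U hσ S).2 ⟨g, hn, rfl⟩)
  · exact le_E U hσ S b

/-- continuity at inaccessible cardinals above the spaces -/
theorem E_reg {l : Cardinal.{u}} (hl : IsInaccessible l) (hX : ∀ c ∈ S, #(X c) < l)
    (ha : ∀ η < l.ord, E U hσ S η.toZFSet ⊆ l.ord.toZFSet) :
    E U hσ S l.ord.toZFSet = l.ord.toZFSet := by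
  classical
  apply subset_antisymm
  · intro w hw
    rw [mem_E] at hw
    obtain ⟨g, hg, rfl⟩ := hw
    obtain ⟨F, hFS, hF⟩ := g.2
    obtain ⟨s₀⟩ := nonempty_pt U
    let b := l.ord.toZFSet
    let g₁ : Fn X (F : Set I) := ⟨fun s => if g.1 s ∈ b then g.1 s else ∅, F, subset_rfl, by
      intro s s' hs
      change (if g.1 s ∈ b then g.1 s else ∅) = (if g.1 s' ∈ b then g.1 s' else ∅)
      rw [hF s s' hs]⟩
    let t : ZFSet.{u} := insert ∅ b
    let T : Type u := Shrink.{u} t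
    let j : T → ZFSet.{u} := fun q => ((equivShrink t).symm q).1
    have hjt : ∀ q, j q ∈ t := fun q => ((equivShrink t).symm q).2
    have hj : ∀ z ∈ t, z ∈ Set.range j := by
      intro z hz
      refine ⟨equivShrink t ⟨z, hz⟩, ?_⟩
      change ((equivShrink t).symm (equivShrink t ⟨z, hz⟩)).1 = z
      rw [Equiv.symm_apply_apply]
    have hr : ∀ s, g₁.1 s ∈ Set.range j := by
      intro s
      apply hj
      change (if g.1 s ∈ b then g.1 s else ∅) ∈ insert ∅ b
      rw [ZFSet.mem_insert_iff]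
      by_cases h : g.1 s ∈ b
      · rw [if_pos h]; exact Or.inr h
      · rw [if_neg h]; exact Or.inl rfl
    obtain ⟨p, hp⟩ := dec_surj (F : Set I) s₀ T j g₁ hr
    let Y : Type u := Finset (Σ c : (F : Set I), X c.1)
    have hY : #Y < l := by
      refine mk_finset_lt hl.isStrongLimit ?_
      rw [Cardinal.mk_sigma]
      refine sum_lt_of_isRegular hl.isRegular ?_ fun c => hX c.1 (hFS c.2)
      exact (Cardinal.lt_aleph0_of_finite _).trans hl.aleph0_lt
    have hlim : ∀ q, (j q).rank < l.ord := by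
      intro q
      have h1 := hjt q
      change j q ∈ insert ∅ b at h1
      rw [ZFSet.mem_insert_iff] at h1
      rcases h1 with h1 | h1
      · rw [h1, ZFSet.rank_empty]
        exact hl.isRegular.ord_pos
      · have := ZFSet.rank_lt_of_mem h1
        rwa [Ordinal.rank_toZFSet] at this
    let η : Ordinal.{u} := Order.succ (⨆ A : Y, (j (p.2 A)).rank)
    have hη : η < l.ord := by
      have h1 : (⨆ A : Y, (j (p.2 A)).rank) < l.ord :=
        iSup_lt_ord_of_isRegular hl.isRegular hY fun A => hlim _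
      have h2 : Order.IsSuccLimit l.ord := Cardinal.isSuccLimit_ord hl.aleph0_lt.le
      exact h2.succ_lt h1
    refine ha η hη ((mem_E U hσ S).2 ⟨g, ?_, rfl⟩)
    refine large_mono (g.fs.comp fun x => x ∈ l.ord.toZFSet)
      (g.fs.comp fun x => x ∈ η.toZFSet) (fun s hs => ?_) hg
    obtain ⟨a, ha1, ha2⟩ := Ordinal.mem_toZFSet_iff.1 hs
    rw [← ha2, Ordinal.toZFSet_mem_toZFSet_iff]
    refine Order.lt_succ_of_le ?_
    have h3 : g₁.1 s = g.1 s := by
      change (if g.1 s ∈ b then g.1 s else ∅) = g.1 s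
      rw [if_pos hs]
    have h4 : g₁.1 s = j (p.2 (p.1.image fun c => ⟨c, s c.1⟩)) := by
      rw [← hp]
      rfl
    have h5 : a = (j (p.2 (p.1.image fun c => ⟨c, s c.1⟩))).rank := by
      rw [← h4, h3, ← ha2, Ordinal.rank_toZFSet]
    rw [h5]
    exact le_ciSup (f := fun A : Y => (j (p.2 A)).rank) (Ordinal.bddAbove_of_small) _
  · exact le_E U hσ S _

lemma E_upair (x y : ZFSet.{u}) : E U hσ S {x, y} = {E U hσ S x, E U hσ S y} := by
  ext z
  rw [ZFSet.mem_pair]
  constructor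
  · intro hz
    rw [mem_E] at hz
    obtain ⟨g, hg, rfl⟩ := hz
    by_cases h : Large U (fun s => g.1 s = x)
    · left
      unfold E
      rw [coll_eq_iff]
      exact h
    · right
      unfold E
      rw [coll_eq_iff]
      have h1 := (large_not (U := U) (g.fs.comp fun a => a = x)).2 h
      have h2 := (large_and (U := U) ((g.fs.comp fun a => a = x).comp Not)
        (g.fs.comp fun a => a ∈ ({x, y} : ZFSet.{u}))).2 ⟨h1, hg⟩
      refine large_mono (((g.fs.comp fun a => a = x).comp Not).comp₂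
        (g.fs.comp fun a => a ∈ ({x, y} : ZFSet.{u})) And) (g.fs.comp fun a => a = y)
        (fun s hs => ?_) h2
      exact (ZFSet.mem_pair.1 hs.2).resolve_left hs.1
  · rintro (rfl | rfl)
    · exact (E_mem U hσ S).2 (ZFSet.mem_pair.2 (Or.inl rfl))
    · exact (E_mem U hσ S).2 (ZFSet.mem_pair.2 (Or.inr rfl))

lemma E_singleton (x : ZFSet.{u}) : E U hσ S {x} = {E U hσ S x} := by
  have h : ∀ y : ZFSet.{u}, ({y, y} : ZFSet.{u}) = {y} := by
    intro y
    ext z
    simp
  rw [← h x, E_upair, h]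

lemma E_pair (x y : ZFSet.{u}) : E U hσ S (pair x y) = pair (E U hσ S x) (E U hσ S y) := by
  unfold pair
  rw [E_upair, E_singleton, E_upair]

end

/-- `x` belongs to `H(c)`: it is a subset of a transitive set of cardinality less than `c`. -/
def InH (c : Cardinal.{u}) (x : ZFSet.{u}) : Prop :=
  ∃ t : ZFSet.{u}, t.IsTransitive ∧ x ⊆ t ∧ t.card < c

lemma exists_rank {t : ZFSet.{u}} (ht : t.IsTransitive) (y : ZFSet.{u}) :
    y ∈ t → ∀ o ≤ y.rank, ∃ z ∈ t, z.rank = o := by
  induction y using ZFSet.inductionOn with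
  | _ y ih =>
    intro hy o ho
    rcases ho.eq_or_lt with h | h
    · exact ⟨y, hy, h.symm⟩
    · obtain ⟨z, hz, hoz⟩ := ZFSet.lt_rank_iff.1 h
      exact ih z hz (ht y hy hz) o hoz

lemma InH.rank_lt {c : Cardinal.{u}} {x : ZFSet.{u}} (h : InH c x) : x.rank < c.ord := by
  obtain ⟨t, ht, hxt, hc⟩ := h
  refine lt_of_le_of_lt (ZFSet.rank_mono hxt) ?_
  rw [Cardinal.lt_ord]
  refine lt_of_le_of_lt ?_ hc
  rw [← Ordinal.card_toZFSet, ← Cardinal.lift_le.{u + 1}, ← ZFSet.cardinalMk_coe_sort,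
    ← ZFSet.cardinalMk_coe_sort]
  have h1 : ∀ z : t.rank.toZFSet, ∃ y : t, y.1.rank.toZFSet = z.1 := by
    intro z
    obtain ⟨o, ho, hz⟩ := Ordinal.mem_toZFSet_iff.1 z.2
    obtain ⟨y, hy, hoy⟩ := ZFSet.lt_rank_iff.1 ho
    obtain ⟨w, hw, hwo⟩ := exists_rank ht y hy o hoy
    exact ⟨⟨w, hw⟩, by rw [hwo]; exact hz⟩
  choose f hf using h1
  refine Cardinal.mk_le_of_injective (f := f) ?_
  intro z z' hzz
  apply Subtype.ext
  rw [← hf z, ← hf z', hzz]

end Q210.IV
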