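import Pool.Agent.Q210.IV.Blk

set_option linter.unusedSectionVars false

open Filter Set Cardinal ZFSet

universe u v

namespace Q210.IV

open Q210.IU

section
variable {L : Type u} [LinearOrder L] [WellFoundedLT L] {l : Cardinal.{u}} {κ : L → Cardinal.{u}}
variable {W : ∀ n, Ultrafilter (κ n).ord.ToType} {B : L → Set (Kt l)}
variable (hκ : StrictMono κ) (h0 : ∀ n, ℵ₀ < κ n) (hW : ∀ n, IsMeas (W n))
  (hB : ∀ j, #(B j) = κ j) (hcof : ∀ c < l, ∃ n, c < κ n) (hl : ∀ n, κ n < l)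

include hB hcof in
/-- a subset of `l` fixed by all the embeddings of level `n` is determined by its
intersection with the `n`-th measurable -/
lemma determined {n : L} {x y : ZFSet.{u}} (hx : x ⊆ l.ord.toZFSet)
    (hfx : ∀ j, Et W h0 hW (blk B n j) x = x) (hfy : ∀ j, Et W h0 hW (blk B n j) y = y)
    (h : x ∩ (κ n).ord.toZFSet = y ∩ (κ n).ord.toZFSet) : x ⊆ y := by
  intro z hz
  obtain ⟨η, hη, rfl⟩ := Ordinal.mem_toZFSet_iff.1 (hx hz)
  obtain ⟨j, hj⟩ := exists_lt hcof hη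
  have h1 : η.toZFSet ∈ Et W h0 hW (blk B n j) (κ n).ord.toZFSet :=
    le_Et_blk h0 hW hB n j (Ordinal.toZFSet_mem_toZFSet_iff.2 hj)
  have h2 : η.toZFSet ∈ Et W h0 hW (blk B n j) (x ∩ (κ n).ord.toZFSet) := by
    unfold Et
    rw [E_inter, ZFSet.mem_inter]
    refine ⟨?_, h1⟩
    have := hfx j
    unfold Et at this
    rw [this]
    exact hz
  rw [h] at h2
  unfold Et at h2
  rw [E_inter, ZFSet.mem_inter] at h2
  have := hfy j
  unfold Et at this
  rw [this] at h2
  exact h2.1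

include hκ hB hcof hl in
/-- in a large family some element is moved at every level -/
lemma exists_moved {D : ZFSet.{u}} (hD : ∀ x ∈ D, x ⊆ l.ord.toZFSet) (hc : l < D.card) :
    ∃ x ∈ D, ∀ n, ∃ j, Et W h0 hW (blk B n j) x ≠ x := by
  by_contra hno
  push Not at hno
  let P : L → ZFSet.{u} → Prop := fun n x => ∀ j, Et W h0 hW (blk B n j) x = x
  let D' : L → ZFSet.{u} := fun n => ZFSet.sep (P n) D
  have h1 : D ⊆ ZFSet.iUnion D' := by
    intro x hx
    obtain ⟨n, hn⟩ := hno x hx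
    rw [ZFSet.mem_iUnion]
    exact ⟨n, ZFSet.mem_sep.2 ⟨hx, hn⟩⟩
  have h2 : ∀ n, (D' n).card ≤ l := by
    intro n
    have h3 : (D' n).card ≤ (ZFSet.powerset (κ n).ord.toZFSet).card := by
      rw [← Cardinal.lift_le.{u + 1}, ← ZFSet.cardinalMk_coe_sort, ← ZFSet.cardinalMk_coe_sort]
      refine Cardinal.mk_le_of_injective (f := fun x : D' n =>
        (⟨x.1 ∩ (κ n).ord.toZFSet, by
          rw [ZFSet.mem_powerset]
          intro z hz
          exact (ZFSet.mem_inter.1 hz).2⟩ : ↥(ZFSet.powerset (κ n).ord.toZFSet))) ?_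
      intro x y hxy
      have h4 := Subtype.ext_iff.1 hxy
      have hx := ZFSet.mem_sep.1 x.2
      have hy := ZFSet.mem_sep.1 y.2
      apply Subtype.ext
      exact subset_antisymm (determined h0 hW hB hcof (hD _ hx.1) hx.2 hy.2 h4)
        (determined h0 hW hB hcof (hD _ hy.1) hy.2 hx.2 h4.symm)
    refine h3.trans ?_
    rw [ZFSet.card_powerset, Ordinal.card_toZFSet, Cardinal.card_ord]
    obtain ⟨N, hN⟩ := hcof _ (hl n)
    exact ((inacc h0 hW N).isStrongPrelimit hN).le.trans (hl N).le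
  have hL : #L ≤ l := by
    have h3 : #L ≤ #l.ord.ToType := by
      refine Cardinal.mk_le_of_injective (f := fun n : L =>
        Ordinal.ToType.mk ⟨(κ n).ord, Cardinal.ord_lt_ord.2 (hl n)⟩) ?_
      intro n m hnm
      have h4 := Ordinal.ToType.mk.injective hnm
      exact hκ.injective (Cardinal.ord_injective (Subtype.ext_iff.1 h4))
    simpa using h3
  have hl0 : ℵ₀ ≤ l := by
    by_contra hcon
    push Not at hcon
    rcases isEmpty_or_nonempty L with h | ⟨⟨n⟩⟩
    · have h3 : l = 0 := by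
        by_contra h3
        obtain ⟨n, _⟩ := hcof 0 (pos_iff_ne_zero.2 h3)
        exact h.false n
      subst h3
      have h4 : D ⊆ ∅ := by
        intro x hx
        obtain ⟨n, _⟩ := hno x hx
        exact (h.false n).elim
      have h5 := ZFSet.card_mono h4
      rw [ZFSet.card_empty] at h5
      exact absurd hc (not_lt.2 h5)
    · exact absurd ((h0 n).trans (hl n)) (not_lt.2 hcon.le)
  have h3 : D.card ≤ l := by
    refine (ZFSet.card_mono h1).trans ?_
    have h4 := ZFSet.lift_card_iUnion_le_sum_card (f := D')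
    have h5 : Cardinal.sum (fun i => (D' i).card) ≤ Cardinal.sum (fun _ : L => l) :=
      Cardinal.sum_le_sum _ _ h2
    have h6 : Cardinal.sum (fun _ : L => l) = #L * l := by
      rw [Cardinal.sum_const]
      simp
    have h7 : #L * l ≤ l := by
      calc #L * l ≤ l * l := mul_le_mul_left hL l
        _ = l := Cardinal.mul_eq_self hl0
    have h8 := h4.trans (h5.trans (h6.le.trans h7))
    simpa using h8
  exact absurd hc (not_lt.2 h3)

include hκ hcof in
lemma exists_above (n m : L) (hl : ∀ n, κ n < l) : ∃ N, n < N ∧ m < N := by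
  obtain ⟨N, hN⟩ := hcof _ (max_lt (hl n) (hl m))
  exact ⟨N, hκ.lt_iff_lt.1 (lt_of_le_of_lt (le_max_left _ _) hN),
    hκ.lt_iff_lt.1 (lt_of_le_of_lt (le_max_right _ _) hN)⟩

include hκ hcof in
theorem no_long_wo [Nonempty L] (hm : ∀ n, IsMeasurable (κ n)) (hl : ∀ n, κ n < l)
    (hct : Cont l κ)
    (D : ZFSet.{u}) (hD : ∀ x ∈ D, x ⊆ l.ord.toZFSet) (hc : l < D.card)
    (R : ZFSet.{u} → ZFSet.{u} → Prop) (hR : ∀ x y, R x y → x ∈ D ∧ y ∈ D)
    (htri : ∀ x ∈ D, ∀ y ∈ D, x ≠ y → R x y ∨ R y x)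
    (hwf : ∀ f : ℕ → ZFSet.{u}, ¬ ∀ i, R (f (i + 1)) (f i) ∧ f (i + 1) ≠ f i)
    (p : ZFSet.{u}) (hp : ∀ n, p.rank < (κ n).ord) (φ : S1)
    (hφ : ∀ x y, R x y ↔ φ.Sat (cons (pair x y) (cons l.ord.toZFSet (fun _ => p)))) :
    False := by
  classical
  have h0 : ∀ n, ℵ₀ < κ n := fun n => (hm n).1
  choose W hW using fun n => (hm n).2
  have hW : ∀ n, IsMeas (W n) := hW
  have hBex : ∀ j, ∃ B : Set (Kt l), #B = κ j := by
    intro j
    have h1 : κ j ≤ #(Kt l) := by
      simpa [Kt] using (hl j).le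
    exact Cardinal.le_mk_iff_exists_set.1 h1
  choose B hB using hBex
  obtain ⟨x, hxD, hx⟩ := exists_moved (W := W) (B := B) hκ h0 hW hB hcof hl hD hc
  choose a ha using hx
  -- the sequence of levels
  choose nx hnx1 hnx2 using fun n m => exists_above hκ hcof n m hl
  let n : ℕ → L := fun k => Nat.rec (Classical.arbitrary L) (fun _ m => nx m (a m)) k
  have hn1 : ∀ k, n (k + 1) = nx (n k) (a (n k)) := fun k => rfl
  have hn : StrictMono n := strictMono_nat_of_lt_succ fun k => by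
    rw [hn1]
    exact hnx1 _ _
  let b : ℕ → L := fun k => a (n k)
  have hb : ∀ k, b k < n (k + 1) := fun k => by
    rw [hn1]
    exact hnx2 _ _
  -- preservation
  have hpres : ∀ S : Set (It L l), Et W h0 hW S l.ord.toZFSet = l.ord.toZFSet →
      Et W h0 hW S p = p → ∀ x y, R x y → R (Et W h0 hW S x) (Et W h0 hW S y) := by
    intro S hS1 hS2 x y hxy
    rw [hφ] at hxy ⊢
    have h1 := E_S1 (Ut l κ W) (Ut_sigma h0 hW) S φ _ hxy
    have h2 : (fun i => E (Ut l κ W) (Ut_sigma h0 hW) S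
        (cons (pair x y) (cons l.ord.toZFSet (fun _ => p)) i)) =
        cons (pair (Et W h0 hW S x) (Et W h0 hW S y))
          (cons l.ord.toZFSet (fun _ => p)) := by
      funext i
      match i with
      | 0 => exact E_pair _ _ _ _ _
      | 1 => exact hS1
      | (i + 2) => exact hS2
    rw [h2] at h1
    exact h1
  have hinj : ∀ S : Set (It L l), ∀ x y, x ≠ y → Et W h0 hW S x ≠ Et W h0 hW S y := by
    intro S x y hxy h
    exact hxy ((E_inj _ _ _).1 h)
  -- closure of `D`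
  have hother : ∀ x ∈ D, ∃ y ∈ D, x ≠ y := by
    intro x hx
    by_contra hno
    push Not at hno
    have h1 : D ⊆ {x} := fun y hy => by rw [ZFSet.mem_singleton]; exact (hno y hy).symm
    have h2 := ZFSet.card_mono h1
    rw [ZFSet.card_singleton] at h2
    have hN := hl (Classical.arbitrary L)
    exact absurd (hc.trans_le h2) (not_lt.2 ((one_le_aleph0.trans (h0 _).le).trans hN.le))
  have hclos : ∀ S : Set (It L l), Et W h0 hW S l.ord.toZFSet =
      l.ord.toZFSet → Et W h0 hW S p = p → ∀ x ∈ D, Et W h0 hW S x ∈ D := by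
    intro S hS1 hS2 x hx
    obtain ⟨y, hy, hxy⟩ := hother x hx
    rcases htri x hx y hy hxy with h | h
    · exact (hR _ _ (hpres S hS1 hS2 _ _ h)).1
    · exact (hR _ _ (hpres S hS1 hS2 _ _ h)).2
  -- the embeddings used
  have hblk1 : ∀ k, Et W h0 hW (blk B (n k) (b k)) l.ord.toZFSet =
      l.ord.toZFSet := fun k => Et_blk_sup hκ h0 hW hB hcof hl hct _ _
  have hblk2 : ∀ k, Et W h0 hW (blk B (n k) (b k)) p = p := fun k =>
    Et_fix h0 hW (n := n k) (fun c hc => by rw [hc.1]) (hp _) hκ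
  have htl1 : ∀ m, Et W h0 hW (tl B n b m) l.ord.toZFSet =
      l.ord.toZFSet := fun m => Et_tl_sup hκ h0 hW hB hcof hl hn hb hct m
  have htl2 : ∀ m, Et W h0 hW (tl B n b m) p = p := fun m =>
    Et_fix h0 hW (n := n m) (tl_level hn m) (hp _) hκ
  -- moved upwards
  have hup : ∀ k, R x (Et W h0 hW (blk B (n k) (b k)) x) := by
    intro k
    have hne := ha (n k)
    rcases htri _ hxD _ (hclos _ (hblk1 k) (hblk2 k) x hxD) hne.symm with h | h
    · exact h
    · exfalso
      let f : ℕ → ZFSet.{u} := fun i => (Et W h0 hW (blk B (n k) (b k)))^[i] x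
      have hf : ∀ i, f (i + 1) = Et W h0 hW (blk B (n k) (b k)) (f i) := fun i => by
        simp only [f]
        rw [Function.iterate_succ_apply']
      refine hwf f fun i => ?_
      induction i with
      | zero => exact ⟨h, hne⟩
      | succ i ih =>
        rw [hf (i + 1)]
        have e := hf i
        rw [e]
        rw [e] at ih
        exact ⟨hpres _ (hblk1 k) (hblk2 k) _ _ ih.1, hinj _ _ _ ih.2⟩
  refine hwf (fun m => Et W h0 hW (tl B n b m) x) fun m => ?_
  have h1 : Et W h0 hW (tl B n b m) x = Et W h0 hW (tl B n b (m + 1))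
      (Et W h0 hW (blk B (n m) (b m)) x) := Et_tl_succ hκ h0 hW hB hn hb m x
  change R (Et W h0 hW (tl B n b (m + 1)) x) (Et W h0 hW (tl B n b m) x) ∧
    Et W h0 hW (tl B n b (m + 1)) x ≠ Et W h0 hW (tl B n b m) x
  rw [h1]
  exact ⟨hpres _ (htl1 _) (htl2 _) _ _ (hup m), hinj _ _ _ (ha (n m)).symm⟩

end

/-- `l` is a limit of measurable cardinals: it is nonzero and the measurable cardinals below `l`
are unbounded in `l`. -/
def LimMeas (l : Cardinal.{u}) : Prop :=
  0 < l ∧ ∀ c < l, ∃ m, c < m ∧ m < l ∧ IsMeasurable m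

lemma IsMeasurable.isInaccessible {m : Cardinal.{u}} (h : IsMeasurable m) : IsInaccessible m := by
  obtain ⟨h0, W, hW⟩ := h
  exact IsMeas.isInaccessible h0 (W := W) hW

/-- the set of levels -/
abbrev Lev (l b : Cardinal.{u}) : Type (u + 1) :=
  {c : Cardinal.{u} // IsMeasurable c ∧ b ≤ c ∧ c < l}

instance (l b : Cardinal.{u}) : Small.{u} (Lev l b) := by
  refine small_of_injective (β := l.ord.ToType)
    (f := fun c : Lev l b => Ordinal.ToType.mk ⟨c.1.ord, Cardinal.ord_lt_ord.2 c.2.2.2⟩) ?_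
  intro c d hcd
  have h4 := Ordinal.ToType.mk.injective hcd
  exact Subtype.ext (Cardinal.ord_injective (Subtype.ext_iff.1 h4))

theorem no_long_wo_lim {l : Cardinal.{u}} (hlm : LimMeas l)
    (D : ZFSet.{u}) (hD : ∀ x ∈ D, x ⊆ l.ord.toZFSet) (hc : l < D.card)
    (R : ZFSet.{u} → ZFSet.{u} → Prop) (hR : ∀ x y, R x y → x ∈ D ∧ y ∈ D)
    (htri : ∀ x ∈ D, ∀ y ∈ D, x ≠ y → R x y ∨ R y x)
    (hwf : ∀ f : ℕ → ZFSet.{u}, ¬ ∀ i, R (f (i + 1)) (f i) ∧ f (i + 1) ≠ f i)
    (p : ZFSet.{u}) (hp : p.rank < l.ord) (φ : S1)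
    (hφ : ∀ x y, R x y ↔ φ.Sat (cons (pair x y) (cons l.ord.toZFSet (fun _ => p)))) :
    False := by
  classical
  obtain ⟨hl0, hlm⟩ := hlm
  have haleph : ℵ₀ < l := by
    obtain ⟨m, _, h2, h3⟩ := hlm 0 hl0
    exact h3.1.trans h2
  -- the bound and the continuity property
  have hb : ∃ b : Cardinal.{u}, b < l ∧ p.rank < b.ord ∧
      (IsInaccessible l ∨ ∃ (T : Type u) (a : T → Ordinal.{u}), (#T < b) ∧
        (∀ t, a t < l.ord) ∧ ∀ η < l.ord, ∃ t, η < a t) := by
    by_cases hreg : l ≤ l.ord.cof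
    · obtain ⟨m, h1, h2, h3⟩ := hlm _ (Cardinal.lt_ord.1 hp)
      refine ⟨m, h2, Cardinal.lt_ord.2 h1, Or.inl ⟨haleph, hreg, ?_⟩⟩
      intro c hc
      obtain ⟨m, h1, h2, h3⟩ := hlm c hc
      exact ((IsMeasurable.isInaccessible h3).isStrongPrelimit h1).trans h2
    · push Not at hreg
      obtain ⟨m, h1, h2, h3⟩ := hlm _ (max_lt (Cardinal.lt_ord.1 hp) hreg)
      refine ⟨m, h2, Cardinal.lt_ord.2 (lt_of_le_of_lt (le_max_left _ _) h1), Or.inr ?_⟩
      obtain ⟨s, hs, hs2⟩ := Order.exists_cof_eq (α := l.ord.ToType)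
      rw [Ordinal.cof_toType] at hs2
      have hlim : Order.IsSuccLimit l.ord := Cardinal.isSuccLimit_ord haleph.le
      refine ⟨s, fun t => Order.succ (Ordinal.ToType.toOrd t.1).1, ?_, ?_, ?_⟩
      · rw [hs2]
        exact lt_of_le_of_lt (le_max_right _ _) h1
      · intro t
        exact hlim.succ_lt (Ordinal.ToType.toOrd t.1).2
      · intro η hη
        obtain ⟨t, ht, hηt⟩ := hs (Ordinal.ToType.mk ⟨η, hη⟩)
        refine ⟨⟨t, ht⟩, Order.lt_succ_of_le ?_⟩
        have h5 : Ordinal.ToType.toOrd (Ordinal.ToType.mk ⟨η, hη⟩) ≤ Ordinal.ToType.toOrd t :=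
          Ordinal.ToType.mk.symm.monotone hηt
        have h6 : Ordinal.ToType.toOrd (Ordinal.ToType.mk (⟨η, hη⟩ : Set.Iio l.ord)) = ⟨η, hη⟩ :=
          Ordinal.ToType.mk.symm_apply_apply _
        rw [h6] at h5
        exact h5
  obtain ⟨b, hbl, hpb, hcb⟩ := hb
  let L : Type u := Shrink.{u} (Lev l b)
  let κ : L → Cardinal.{u} := fun n => ((equivShrink (Lev l b)).symm n).1
  have hκ : StrictMono κ := by
    intro n m hnm
    exact hnm
  have hcof : ∀ c < l, ∃ n : L, c < κ n := by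
    intro c hc
    obtain ⟨m, h1, h2, h3⟩ := hlm _ (max_lt hc hbl)
    refine ⟨equivShrink (Lev l b) ⟨m, h3, ((le_max_right _ _).trans h1.le), h2⟩, ?_⟩
    change c < ((equivShrink (Lev l b)).symm (equivShrink (Lev l b) _)).1
    rw [Equiv.symm_apply_apply]
    exact lt_of_le_of_lt (le_max_left _ _) h1
  have hm : ∀ n : L, IsMeasurable (κ n) := fun n => ((equivShrink (Lev l b)).symm n).2.1
  have hbn : ∀ n : L, b ≤ κ n := fun n => ((equivShrink (Lev l b)).symm n).2.2.1
  have hl : ∀ n : L, κ n < l := fun n => ((equivShrink (Lev l b)).symm n).2.2.2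
  haveI : Nonempty L := by
    obtain ⟨n, _⟩ := hcof 0 hl0
    exact ⟨n⟩
  have hct : Cont l κ := by
    rcases hcb with h | ⟨T, a, h1, h2, h3⟩
    · exact Or.inl h
    · exact Or.inr ⟨T, a, fun n => h1.trans_le (hbn n), h2, h3⟩
  exact no_long_wo hκ hcof hm hl hct D hD hc R hR htri hwf p
    (fun n => hpb.trans_le (Cardinal.ord_le_ord.2 (hbn n))) φ hφ

end Q210.IV
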